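import Mathlib

open Metric Set Filter Topology

namespace Pool.Agent.Lib.MP_448b0d_an

/-- Local graph parametrisation of `f x + g y = 0` over `y`, near a point where `f' ≠ 0`. -/
lemma exists_graph {f g : ℂ → ℂ} (hf : Differentiable ℂ f) (hg : Differentiable ℂ g) {x0 y0 : ℂ}
    (h0 : f x0 + g y0 = 0) (hd : deriv f x0 ≠ 0) :
    ∃ ψ : ℂ → ℂ, (∀ᶠ y in 𝓝 y0, DifferentiableAt ℂ ψ y) ∧ ψ y0 = x0 ∧
      ∀ᶠ y in 𝓝 y0, f (ψ y) + g y = 0 := by
  have hfa : AnalyticAt ℂ f x0 := hf.analyticAt x0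
  set φ := hfa.hasStrictDerivAt.localInverse _ _ _ hd with hφ
  have hφa : AnalyticAt ℂ φ (f x0) := hfa.analyticAt_localInverse hd
  have hneg : -g y0 = f x0 := by
    linear_combination (-1 : ℂ) * h0
  have hcont : Tendsto (fun y => -g y) (𝓝 y0) (𝓝 (f x0)) := by
    rw [← hneg]
    exact (hg.continuous.neg).tendsto y0
  refine ⟨fun y => φ (-g y), ?_, ?_, ?_⟩
  · have h1 : ∀ᶠ t in 𝓝 (f x0), AnalyticAt ℂ φ t := hφa.eventually_analyticAt
    filter_upwards [hcont.eventually h1] with y hy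
    exact (hy.differentiableAt).comp y (hg y).neg
  · simp only [hneg]
    exact (hfa.hasStrictDerivAt.eventually_left_inverse hd).self_of_nhds
  · have h1 : ∀ᶠ t in 𝓝 (f x0), f (φ t) = t :=
      hfa.hasStrictDerivAt.eventually_right_inverse hd
    filter_upwards [hcont.eventually h1] with y hy
    rw [hy]; ring

/-- Maximum principle on the curve `f x + g y = 0`. -/
lemma curve_max_principle {f g : ℂ → ℂ} (hf : Differentiable ℂ f) (hg : Differentiable ℂ g)
    {S U : Set (ℂ × ℂ)} (hS : IsCompact S) (hU : IsOpen U) (hUS : U ⊆ S)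
    {G : ℂ × ℂ → ℂ} (hGc : ContinuousOn G S) (hGd : DifferentiableOn ℂ G U)
    (hG0 : ∀ p ∈ U, deriv f p.1 = 0 → G p = 0) {m : ℝ} (hm : 0 ≤ m)
    (hbd : ∀ p ∈ S, p ∉ U → f p.1 + g p.2 = 0 → ‖G p‖ ≤ m) :
    ∀ p ∈ S, f p.1 + g p.2 = 0 → ‖G p‖ ≤ m := by
  intro p hpS hpX
  by_contra hcon
  push Not at hcon
  have hXcl : IsClosed {q : ℂ × ℂ | f q.1 + g q.2 = 0} := by
    apply isClosed_eq
    · exact (hf.continuous.comp continuous_fst).add (hg.continuous.comp continuous_snd)
    · exact continuous_const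
  set K : Set (ℂ × ℂ) := S ∩ {q : ℂ × ℂ | f q.1 + g q.2 = 0} with hK
  have hKc : IsCompact K := hS.inter_right hXcl
  have hKG : ContinuousOn (fun q => ‖G q‖) K := (hGc.norm).mono inter_subset_left
  obtain ⟨q, hqK, hqmax⟩ := hKc.exists_isMaxOn ⟨p, hpS, hpX⟩ hKG
  set M := ‖G q‖ with hM
  have hMm : m < M := lt_of_lt_of_le hcon (hqmax ⟨hpS, hpX⟩)
  set T : Set (ℂ × ℂ) := K ∩ (fun q => ‖G q‖) ⁻¹' {M} with hT
  have hTcl : IsClosed T := hKG.preimage_isClosed_of_isClosed hKc.isClosed isClosed_singleton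
  have hTc : IsCompact T := hKc.of_isClosed_subset hTcl inter_subset_left
  have hre : ContinuousOn (fun q : ℂ × ℂ => q.2.re) T :=
    (Complex.continuous_re.comp continuous_snd).continuousOn
  obtain ⟨q1, hq1T, hq1max⟩ := hTc.exists_isMaxOn ⟨q, hqK, by simp [hM]⟩ hre
  have hq1S : q1 ∈ S := hq1T.1.1
  have hq1X : f q1.1 + g q1.2 = 0 := hq1T.1.2
  have hq1M : ‖G q1‖ = M := hq1T.2
  have hq1U : q1 ∈ U := by
    by_contra hnU
    have := hbd q1 hq1S hnU hq1X
    linarith
  have hder : deriv f q1.1 ≠ 0 := by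
    intro h
    have := hG0 q1 hq1U h
    rw [this, norm_zero] at hq1M
    linarith
  obtain ⟨ψ, hψd, hψ0, hψX⟩ := exists_graph hf hg hq1X hder
  have hγd : ∀ᶠ y in 𝓝 q1.2, DifferentiableAt ℂ (fun y => (ψ y, y)) y := by
    filter_upwards [hψd] with y hy
    exact hy.prodMk differentiableAt_id
  have hγ0 : (ψ q1.2, q1.2) = q1 := by rw [hψ0]
  have hγU : ∀ᶠ y in 𝓝 q1.2, (ψ y, y) ∈ U := by
    have hc : ContinuousAt (fun y => (ψ y, y)) q1.2 := hγd.self_of_nhds.continuousAt
    apply hc.eventually_mem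
    apply hU.mem_nhds
    rw [hγ0]; exact hq1U
  have hGγd : ∀ᶠ y in 𝓝 q1.2, DifferentiableAt ℂ (fun y => G (ψ y, y)) y := by
    filter_upwards [hγd, hγU] with y hy hyU
    exact DifferentiableAt.comp (f := fun y => (ψ y, y)) y
      ((hGd _ hyU).differentiableAt (hU.mem_nhds hyU)) hy
  have hloc : IsLocalMax (norm ∘ fun y => G (ψ y, y)) q1.2 := by
    filter_upwards [hγU, hψX] with y hyU hyX
    simp only [Function.comp]
    rw [hγ0, hq1M]
    exact hqmax ⟨hUS hyU, hyX⟩
  have hconst := Complex.eventually_eq_of_isLocalMax_norm hGγd hloc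
  have hev : ∀ᶠ y in 𝓝 q1.2, y.re ≤ q1.2.re := by
    filter_upwards [hconst, hγU, hψX] with y hy hyU hyX
    have : (ψ y, y) ∈ T := by
      refine ⟨⟨hUS hyU, hyX⟩, ?_⟩
      simp only [mem_preimage, mem_singleton_iff]
      rw [hy, hγ0, hq1M]
    exact hq1max this
  have htend : Tendsto (fun t : ℝ => q1.2 + (t : ℂ)) (𝓝[>] 0) (𝓝 q1.2) := by
    have : Tendsto (fun t : ℝ => q1.2 + (t : ℂ)) (𝓝 0) (𝓝 (q1.2 + ((0 : ℝ) : ℂ))) := by
      apply Continuous.tendsto
      fun_prop
    simp only [Complex.ofReal_zero, add_zero] at this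
    exact this.mono_left nhdsWithin_le_nhds
  have hev2 := htend.eventually hev
  have hpos : ∀ᶠ t : ℝ in 𝓝[>] 0, 0 < t := eventually_mem_nhdsWithin
  obtain ⟨t, ht1, ht2⟩ := (hev2.and hpos).exists
  simp at ht1
  linarith

/-- A real number all of whose powers are bounded is at most one. -/
lemma le_one_of_pow_le {t c : ℝ} (h : ∀ k : ℕ, t ^ k ≤ c) : t ≤ 1 := by
  by_contra hlt
  push Not at hlt
  have h1 := tendsto_pow_atTop_atTop_of_one_lt hlt
  obtain ⟨k, hk⟩ := (h1.eventually_gt_atTop c).exists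
  exact absurd (h k) (not_le.mpr hk)

/-- A real number all of whose large powers are bounded is at most one. -/
lemma le_one_of_pow_le' {t c : ℝ} {N0 : ℕ} (h : ∀ k : ℕ, N0 ≤ k → t ^ k ≤ c) : t ≤ 1 := by
  by_contra hlt
  push Not at hlt
  have h1 := tendsto_pow_atTop_atTop_of_one_lt hlt
  obtain ⟨k, hk, hk2⟩ := ((h1.eventually_gt_atTop c).and (eventually_ge_atTop N0)).exists
  exact absurd (h k hk2) (not_le.mpr hk)

/-- The derivative of a nonconstant entire function is not identically zero near any point. -/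
lemma eventually_deriv_ne {f : ℂ → ℂ} (hf : Differentiable ℂ f) (hfc : ∃ a b, f a ≠ f b) (x0 : ℂ) :
    ∀ᶠ x in 𝓝[≠] x0, deriv f x ≠ 0 := by
  have hda : AnalyticOnNhd ℂ (deriv f) univ := by
    have : AnalyticOnNhd ℂ f univ := fun x _ => hf.analyticAt x
    exact this.deriv
  rcases (hda x0 (mem_univ _)).eventually_eq_zero_or_eventually_ne_zero with h | h
  · exfalso
    have h2 : EqOn (deriv f) 0 univ :=
      hda.eqOn_zero_of_preconnected_of_eventuallyEq_zero isPreconnected_univ (mem_univ x0) h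
    obtain ⟨a, b, hab⟩ := hfc
    exact hab (is_const_of_deriv_eq_zero hf (fun x => h2 (mem_univ x)) a b)
  · exact h

/-- A nonconstant entire function takes its value at a point only there, locally. -/
lemma eventually_ne_value {f : ℂ → ℂ} (hf : Differentiable ℂ f) (hfc : ∃ a b, f a ≠ f b) (x0 : ℂ) :
    ∀ᶠ x in 𝓝[≠] x0, f x ≠ f x0 := by
  have hda : AnalyticOnNhd ℂ (fun x => f x - f x0) univ := by
    intro x _
    exact (hf.analyticAt x).sub analyticAt_const
  rcases (hda x0 (mem_univ _)).eventually_eq_zero_or_eventually_ne_zero with h | h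
  · exfalso
    have h2 : EqOn (fun x => f x - f x0) 0 univ :=
      hda.eqOn_zero_of_preconnected_of_eventuallyEq_zero isPreconnected_univ (mem_univ x0) h
    obtain ⟨a, b, hab⟩ := hfc
    apply hab
    have ha := h2 (mem_univ a)
    have hb := h2 (mem_univ b)
    simp only [Pi.zero_apply] at ha hb
    rw [sub_eq_zero.mp ha, sub_eq_zero.mp hb]
  · filter_upwards [h] with x hx hx2
    exact hx (sub_eq_zero.mpr hx2)

/-- Open mapping theorem for nonconstant entire functions. -/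
lemma isOpenMap_entire {f : ℂ → ℂ} (hf : Differentiable ℂ f) (hfc : ∃ a b, f a ≠ f b) :
    IsOpenMap f := by
  have h1 : AnalyticOnNhd ℂ f univ := fun x _ => hf.analyticAt x
  rcases h1.is_constant_or_isOpen isPreconnected_univ with ⟨w, hw⟩ | h
  · exfalso
    obtain ⟨a, b, hab⟩ := hfc
    exact hab (by rw [hw a (mem_univ _), hw b (mem_univ _)])
  · intro U hU
    exact h U (subset_univ _) hU

/-- A nonconstant entire function is unbounded. -/
lemma exists_large {g : ℂ → ℂ} (hg : Differentiable ℂ g) (hgc : ∃ a b, g a ≠ g b) (M : ℝ) :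
    ∃ b, M < ‖g b‖ := by
  by_contra hcon
  push Not at hcon
  obtain ⟨a, b, hab⟩ := hgc
  apply hab
  apply hg.apply_eq_apply_of_bounded
  rw [isBounded_iff_forall_norm_le]
  refine ⟨M, ?_⟩
  rintro _ ⟨x, rfl⟩
  exact hcon x

/-- Phragmén–Lindelöf principle on the curve `f x + g y = 0`, at points with `f' ≠ 0`. -/
lemma curve_PL_aux {f g : ℂ → ℂ} (hf : Differentiable ℂ f) (hg : Differentiable ℂ g)
    (hgc : ∃ a b, g a ≠ g b)
    {D : ℂ × ℂ → ℂ} (hD : Differentiable ℂ D) {C ε r : ℝ} {a : ℂ} (hr : 0 < r) (hε : 0 < ε)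
    (hC : ∀ p : ℂ × ℂ, f p.1 + g p.2 = 0 → ‖D p‖ ≤ C)
    (hsmall : ∀ p : ℂ × ℂ, f p.1 + g p.2 = 0 → ‖p.1 - a‖ ≤ r → ‖D p‖ ≤ ε)
    (p : ℂ × ℂ) (hp : f p.1 + g p.2 = 0) (hdp : deriv f p.1 ≠ 0) : ‖D p‖ ≤ ε := by
  -- we may assume that `C` is large
  wlog hCε : 2 * ε ≤ C generalizing C
  · exact this (C := max C (2 * ε)) (fun q hq => (hC q hq).trans (le_max_left _ _))
      (le_max_right _ _)
  have hC0 : 0 < C := by linarith
  rcases le_or_gt ‖p.1 - a‖ r with hle | hgt
  · exact hsmall p hp hle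
  set A : ℝ := C / ε with hA
  have hA2 : 2 ≤ A := by rw [hA, le_div_iff₀ hε]; linarith
  have hA1 : 1 < A := by linarith
  have hA0 : 0 < A := by linarith
  have hCA : C = ε * A := by rw [hA]; field_simp
  have hpa : 0 < ‖p.1 - a‖ := lt_trans hr hgt
  -- Main estimate for a given `N`
  have key : ∀ N : ℕ, ‖p.1 - a‖ < r * A ^ N → (‖D p‖ / ε) ^ N ≤ ‖p.1 - a‖ / r := by
    intro N hN
    set K : ℝ := r * A ^ N with hK
    have hrK : r < K := lt_trans hgt hN
    have hK0 : 0 < K := lt_trans hr hrK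
    obtain ⟨M, hM⟩ := (isCompact_closedBall a K).exists_bound_of_continuousOn
      (f := f) hf.continuous.continuousOn
    obtain ⟨M', hM'⟩ := (isCompact_closedBall a K).exists_bound_of_continuousOn
      (f := deriv f) (hf.contDiff (n := 1)).continuous_deriv_one.continuousOn
    have hM'0 : 0 < M' := by
      have h1 := hM' p.1 (by rw [mem_closedBall, dist_eq_norm]; exact hN.le)
      exact lt_of_lt_of_le (norm_pos_iff.mpr hdp) h1
    obtain ⟨b, hb⟩ := exists_large hg hgc M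
    have hbev : ∀ᶠ y in 𝓝 b, M < ‖g y‖ :=
      (hg.continuous.norm).continuousAt.eventually_const_lt hb
    obtain ⟨r', hr'0, hr'⟩ := Metric.eventually_nhds_iff_ball.mp hbev
    have hfar : ∀ q : ℂ × ℂ, f q.1 + g q.2 = 0 → ‖q.1 - a‖ ≤ K → r' ≤ ‖q.2 - b‖ := by
      intro q hq hqa
      by_contra hlt
      push Not at hlt
      have h1 := hr' q.2 (by rw [mem_ball, dist_eq_norm]; exact hlt)
      have h2 := hM q.1 (by rw [mem_closedBall, dist_eq_norm]; exact hqa)
      have h3 : g q.2 = - f q.1 := by linear_combination hq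
      rw [h3, norm_neg] at h1
      linarith
    have hpb : r' ≤ ‖p.2 - b‖ := hfar p hp hN.le
    have hpb0 : 0 < ‖p.2 - b‖ := lt_of_lt_of_le hr'0 hpb
    -- bound of powers
    have hpow : ∀ k : ℕ, ((‖D p‖ / ε) ^ N * (r / ‖p.1 - a‖)) ^ k ≤
        M' * ‖p.2 - b‖ / (r' * ‖deriv f p.1‖) := by
      intro k
      set n := N * k with hn
      set L : ℝ := r' * A ^ n + ‖p.2 - b‖ with hL
      have hAn : 0 < A ^ n := pow_pos hA0 n
      have hLp : ‖p.2 - b‖ < L := by
        have : 0 < r' * A ^ n := mul_pos hr'0 hAn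
        linarith
      have hLA : r' * A ^ n ≤ L := by linarith
      have hL0 : 0 < L := lt_trans hpb0 hLp
      set S : Set (ℂ × ℂ) := {q | (r ≤ ‖q.1 - a‖ ∧ ‖q.1 - a‖ ≤ K) ∧
        (r' / 2 ≤ ‖q.2 - b‖ ∧ ‖q.2 - b‖ ≤ L)} with hSdef
      set U : Set (ℂ × ℂ) := {q | (r < ‖q.1 - a‖ ∧ ‖q.1 - a‖ < K) ∧
        (r' / 2 < ‖q.2 - b‖ ∧ ‖q.2 - b‖ < L)} with hUdef
      have hc1 : Continuous fun q : ℂ × ℂ => ‖q.1 - a‖ := by fun_prop
      have hc2 : Continuous fun q : ℂ × ℂ => ‖q.2 - b‖ := by fun_prop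
      have hScl : IsClosed S :=
        ((isClosed_le continuous_const hc1).inter (isClosed_le hc1 continuous_const)).inter
          ((isClosed_le continuous_const hc2).inter (isClosed_le hc2 continuous_const))
      have hUo : IsOpen U :=
        ((isOpen_lt continuous_const hc1).inter (isOpen_lt hc1 continuous_const)).inter
          ((isOpen_lt continuous_const hc2).inter (isOpen_lt hc2 continuous_const))
      have hSc : IsCompact S := by
        apply ((isCompact_closedBall a K).prod (isCompact_closedBall b L)).of_isClosed_subset hScl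
        intro q hq
        refine ⟨?_, ?_⟩
        · rw [mem_closedBall, dist_eq_norm]; exact hq.1.2
        · rw [mem_closedBall, dist_eq_norm]; exact hq.2.2
      have hUS : U ⊆ S := fun q hq => ⟨⟨hq.1.1.le, hq.1.2.le⟩, ⟨hq.2.1.le, hq.2.2.le⟩⟩
      have hne1 : ∀ q ∈ S, q.1 - a ≠ 0 := by
        intro q hq h0
        have := hq.1.1
        rw [h0, norm_zero] at this
        linarith
      have hne2 : ∀ q ∈ S, q.2 - b ≠ 0 := by
        intro q hq h0
        have := hq.2.1
        rw [h0, norm_zero] at this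
        linarith
      set G : ℂ × ℂ → ℂ := fun q => D q ^ n * deriv f q.1 * ((q.1 - a) ^ k * (q.2 - b))⁻¹ with hG
      have hdf : Differentiable ℂ (deriv f) := hf.deriv
      have hGd : ∀ q ∈ S, DifferentiableAt ℂ G q := by
        intro q hq
        apply DifferentiableAt.mul
        · exact ((hD q).pow n).mul ((hdf q.1).comp q differentiableAt_fst)
        · apply DifferentiableAt.fun_inv
          · fun_prop
          · exact mul_ne_zero (pow_ne_zero _ (hne1 q hq)) (hne2 q hq)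
      have hGnorm : ∀ q, ‖G q‖ = ‖D q‖ ^ n * ‖deriv f q.1‖ / (‖q.1 - a‖ ^ k * ‖q.2 - b‖) := by
        intro q
        simp [hG, div_eq_mul_inv]
      have hm0 : 0 ≤ ε ^ n * M' / (r ^ k * r') := by positivity
      have hmax := curve_max_principle hf hg hSc hUo hUS
        (G := G) (fun q hq => (hGd q hq).continuousAt.continuousWithinAt)
        (fun q hq => (hGd q (hUS hq)).differentiableWithinAt)
        (fun q _ h0 => by simp [hG, h0]) hm0 ?_ p ⟨⟨hgt.le, hN.le⟩, ⟨by linarith, hLp.le⟩⟩ hp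
      · rw [hGnorm] at hmax
        have hd0 : 0 < ‖deriv f p.1‖ := norm_pos_iff.mpr hdp
        rw [div_le_div_iff₀ (by positivity) (by positivity)] at hmax
        rw [le_div_iff₀ (by positivity), mul_pow, div_pow, div_pow, ← pow_mul, ← pow_mul, div_pow]
        rw [← hn]
        rw [show ‖D p‖ ^ n / ε ^ n * (r ^ k / ‖p.1 - a‖ ^ k) * (r' * ‖deriv f p.1‖) =
          (‖D p‖ ^ n * ‖deriv f p.1‖ * (r ^ k * r')) / (ε ^ n * ‖p.1 - a‖ ^ k) by
            field_simp]
        rw [div_le_iff₀ (by positivity)]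
        calc _ ≤ _ := hmax
          _ = _ := by ring
      · intro q hqS hqU hqX
        rw [hGnorm]
        have hq1 := hM' q.1 (by rw [mem_closedBall, dist_eq_norm]; exact hqS.1.2)
        have hq2 := hfar q hqX hqS.1.2
        have hq3 := hC q hqX
        have hcases : ‖q.1 - a‖ = r ∨ ‖q.1 - a‖ = K ∨ ‖q.2 - b‖ = L := by
          by_contra hcon
          push Not at hcon
          apply hqU
          refine ⟨⟨lt_of_le_of_ne hqS.1.1 (Ne.symm hcon.1), lt_of_le_of_ne hqS.1.2 hcon.2.1⟩,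
            ⟨by linarith, lt_of_le_of_ne hqS.2.2 hcon.2.2⟩⟩
        rcases hcases with h | h | h
        · rw [h]
          have h4 := hsmall q hqX h.le
          gcongr
        · rw [h]
          have hKk : K ^ k = r ^ k * A ^ n := by rw [hK, mul_pow, ← pow_mul]
          calc ‖D q‖ ^ n * ‖deriv f q.1‖ / (K ^ k * ‖q.2 - b‖)
              ≤ C ^ n * M' / (K ^ k * r') := by gcongr
            _ = ε ^ n * M' / (r ^ k * r') := by
              rw [hKk, hCA, mul_pow]
              field_simp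
        · rw [h]
          calc ‖D q‖ ^ n * ‖deriv f q.1‖ / (‖q.1 - a‖ ^ k * L)
              ≤ C ^ n * M' / (r ^ k * (r' * A ^ n)) := by
                have := hqS.1.1
                gcongr
            _ = ε ^ n * M' / (r ^ k * r') := by
              rw [hCA, mul_pow]
              field_simp
    have h1 := le_one_of_pow_le hpow
    rw [mul_div_assoc', div_le_one hpa] at h1
    rw [le_div_iff₀ hr]
    exact h1
  -- conclude
  have hev : ∀ᶠ N : ℕ in atTop, ‖p.1 - a‖ < r * A ^ N := by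
    have h1 := (tendsto_pow_atTop_atTop_of_one_lt hA1).const_mul_atTop hr
    exact h1.eventually_gt_atTop _
  obtain ⟨N0, hN0⟩ := eventually_atTop.mp hev
  have h2 : ‖D p‖ / ε ≤ 1 := le_one_of_pow_le' (fun N hN => key N (hN0 N hN))
  rwa [div_le_one hε] at h2

/-- Phragmén–Lindelöf principle on the curve `f x + g y = 0`: a function holomorphic on `ℂ²`,
bounded on the curve and bounded by `ε` over a disc of the `x`-plane is bounded by `ε` on the whole
curve. -/
lemma curve_PL {f g : ℂ → ℂ} (hf : Differentiable ℂ f) (hg : Differentiable ℂ g)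
    (hfc : ∃ a b, f a ≠ f b) (hgc : ∃ a b, g a ≠ g b)
    {D : ℂ × ℂ → ℂ} (hD : Differentiable ℂ D) {C ε r : ℝ} {a : ℂ} (hr : 0 < r) (hε : 0 < ε)
    (hC : ∀ p : ℂ × ℂ, f p.1 + g p.2 = 0 → ‖D p‖ ≤ C)
    (hsmall : ∀ p : ℂ × ℂ, f p.1 + g p.2 = 0 → ‖p.1 - a‖ ≤ r → ‖D p‖ ≤ ε)
    (p : ℂ × ℂ) (hp : f p.1 + g p.2 = 0) : ‖D p‖ ≤ ε := by
  have haux := fun q hq hdq => curve_PL_aux hf hg hgc hD hr hε hC hsmall q hq hdq
  have hcl : IsClosed {q : ℂ × ℂ | ‖D q‖ ≤ ε} :=
    isClosed_le (hD.continuous.norm) continuous_const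
  suffices h : p ∈ closure {q : ℂ × ℂ | ‖D q‖ ≤ ε} by
    rwa [hcl.closure_eq] at h
  rw [Metric.mem_closure_iff]
  intro δ hδ
  -- a punctured ball around `p.1` on which `f' ≠ 0`
  obtain ⟨δ1, hδ1, hball1⟩ := Metric.eventually_nhds_iff_ball.mp
    (eventually_nhdsWithin_iff.mp (eventually_deriv_ne hf hfc p.1))
  set η := min δ δ1 with hη
  have hη0 : 0 < η := lt_min hδ hδ1
  have hopen : IsOpen (f '' ball p.1 η) := isOpenMap_entire hf hfc _ isOpen_ball
  have hmem : - g p.2 ∈ f '' ball p.1 η := by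
    refine ⟨p.1, mem_ball_self hη0, ?_⟩
    linear_combination hp
  have hev1 : ∀ᶠ y in 𝓝 p.2, - g y ∈ f '' ball p.1 η :=
    (hg.continuous.neg.continuousAt).eventually_mem (hopen.mem_nhds hmem)
  have hev2 : ∀ᶠ y in 𝓝[≠] p.2, g y ≠ g p.2 := eventually_ne_value hg hgc p.2
  have hev3 : ∀ᶠ y in 𝓝 p.2, y ∈ ball p.2 δ := ball_mem_nhds _ hδ
  obtain ⟨y, ⟨hy1, hy3⟩, hy2⟩ :=
    (((hev1.and hev3).filter_mono nhdsWithin_le_nhds).and hev2).exists
  obtain ⟨x, hx, hxy⟩ := hy1
  have hX : f x + g y = 0 := by rw [hxy]; ring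
  have hxne : x ≠ p.1 := by
    intro h
    apply hy2
    rw [h] at hxy
    linear_combination hxy - hp
  have hdx : deriv f x ≠ 0 := by
    apply hball1 x _ hxne
    exact ball_subset_ball (min_le_right _ _) hx
  refine ⟨(x, y), haux (x, y) hX hdx, ?_⟩
  rw [Prod.dist_eq, max_lt_iff]
  constructor
  · rw [dist_comm]
    exact ball_subset_ball (min_le_left _ _) hx
  · rw [dist_comm]
    exact hy3

end Pool.Agent.Lib.MP_448b0d_an
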