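import Mathlib
import Pool.Agent.Lib.MP_448b0d_an.Curve

open Metric Set Filter Topology

namespace Pool.Agent.Lib.MP_448b0d_an

/-- Quantitative local inverse: if `‖f'(z) - f'(z₀)‖ ≤ ‖f'(z₀)‖ / 2` on the ball of radius `δ`
about `z₀`, then `f` has a holomorphic right inverse on the ball of radius `‖f'(z₀)‖ δ / 8` about
`f z₀`. -/
lemma exists_inverse_of_deriv_close {f : ℂ → ℂ} (hf : Differentiable ℂ f) {z₀ : ℂ} {δ : ℝ}
    (hδ : 0 < δ) (h0 : deriv f z₀ ≠ 0)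
    (hclose : ∀ z ∈ ball z₀ δ, ‖deriv f z - deriv f z₀‖ ≤ ‖deriv f z₀‖ / 2) :
    ∃ h : ℂ → ℂ, DifferentiableOn ℂ h (ball (f z₀) (‖deriv f z₀‖ * δ / 8)) ∧
      (∀ t ∈ ball (f z₀) (‖deriv f z₀‖ * δ / 8), f (h t) = t) ∧
      (∀ᶠ z in 𝓝 z₀, h (f z) = z) := by
  set A := deriv f z₀ with hA
  have hA0 : 0 < ‖A‖ := norm_pos_iff.mpr h0
  -- Lipschitz estimate for `f - A z`
  have hlip : ∀ x ∈ ball z₀ δ, ∀ y ∈ ball z₀ δ,
      ‖(f x - A * x) - (f y - A * y)‖ ≤ ‖A‖ / 2 * ‖x - y‖ := by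
    intro x hx y hy
    apply (convex_ball z₀ δ).norm_image_sub_le_of_norm_hasDerivWithin_le
      (f := fun z => f z - A * z) (f' := fun z => deriv f z - A) _ hclose hy hx
    intro z _
    have h1 : HasDerivAt (fun z => f z - A * z) (deriv f z - A * 1) z :=
      ((hf z).hasDerivAt).sub ((hasDerivAt_id z).const_mul A)
    rw [mul_one] at h1
    exact h1.hasDerivWithinAt
  have hanti : ∀ x ∈ ball z₀ δ, ∀ y ∈ ball z₀ δ, ‖A‖ / 2 * ‖x - y‖ ≤ ‖f x - f y‖ := by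
    intro x hx y hy
    have h1 := hlip x hx y hy
    have h2 : A * (x - y) = (f x - f y) - ((f x - A * x) - (f y - A * y)) := by ring
    have h3 : ‖A‖ * ‖x - y‖ ≤ ‖f x - f y‖ + ‖(f x - A * x) - (f y - A * y)‖ := by
      rw [← norm_mul, h2]
      exact norm_sub_le _ _
    linarith
  have hinj : ∀ x ∈ ball z₀ δ, ∀ y ∈ ball z₀ δ, f x = f y → x = y := by
    intro x hx y hy hxy
    have h1 := hanti x hx y hy
    rw [hxy, sub_self, norm_zero] at h1
    have h2 : ‖x - y‖ ≤ 0 := by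
      by_contra hlt
      push Not at hlt
      have : 0 < ‖A‖ / 2 * ‖x - y‖ := by positivity
      linarith
    exact sub_eq_zero.mp (norm_le_zero_iff.mp h2)
  have hz₀ : z₀ ∈ ball z₀ δ := mem_ball_self hδ
  have hsub : closedBall z₀ (δ / 2) ⊆ ball z₀ δ := closedBall_subset_ball (by linarith)
  -- surjectivity
  have hsurj : ball (f z₀) (‖A‖ * δ / 8) ⊆ f '' closedBall z₀ (δ / 2) := by
    have h1 := DiffContOnCl.ball_subset_image_closedBall (f := f) (z₀ := z₀) (r := δ / 2)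
      (ε := ‖A‖ * δ / 4) hf.diffContOnCl (by linarith) ?_ ?_
    · have h2 : ‖A‖ * δ / 4 / 2 = ‖A‖ * δ / 8 := by ring
      rwa [h2] at h1
    · intro z hz
      have h2 := hanti z (hsub (sphere_subset_closedBall hz)) z₀ hz₀
      rw [mem_sphere, dist_eq_norm] at hz
      rw [hz] at h2
      linarith
    · have h2 : ∀ᶠ z in 𝓝[≠] z₀, f z ≠ f z₀ := by
        have h3 : ∀ᶠ z in 𝓝[≠] z₀, z ∈ ball z₀ δ :=
          mem_nhdsWithin_of_mem_nhds (ball_mem_nhds _ hδ)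
        have h4 : ∀ᶠ z in 𝓝[≠] z₀, z ≠ z₀ := eventually_mem_nhdsWithin
        filter_upwards [h3, h4] with z hz hz' h5
        exact hz' (hinj z hz z₀ hz₀ h5)
      exact (h2.frequently).filter_mono nhdsWithin_le_nhds
  -- choose the inverse
  have hch : ∀ t : ℂ, ∃ z : ℂ, t ∈ ball (f z₀) (‖A‖ * δ / 8) → z ∈ ball z₀ δ ∧ f z = t := by
    intro t
    by_cases ht : t ∈ ball (f z₀) (‖A‖ * δ / 8)
    · obtain ⟨z, hz, hzt⟩ := hsurj ht
      exact ⟨z, fun _ => ⟨hsub hz, hzt⟩⟩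
    · exact ⟨0, fun h => absurd h ht⟩
  choose h hh using hch
  refine ⟨h, ?_, fun t ht => (hh t ht).2, ?_⟩
  · intro t ht
    apply DifferentiableAt.differentiableWithinAt
    have hball : ∀ᶠ s in 𝓝 t, s ∈ ball (f z₀) (‖A‖ * δ / 8) := isOpen_ball.mem_nhds ht
    have hcont : ContinuousAt h t := by
      rw [Metric.continuousAt_iff]
      intro ε hε
      obtain ⟨η, hη0, hη⟩ := Metric.eventually_nhds_iff.mp hball
      refine ⟨min η (‖A‖ / 2 * ε), lt_min hη0 (by positivity), ?_⟩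
      intro s hs
      have hs1 : s ∈ ball (f z₀) (‖A‖ * δ / 8) := hη (lt_of_lt_of_le hs (min_le_left _ _))
      have hs2 : dist s t < ‖A‖ / 2 * ε := lt_of_lt_of_le hs (min_le_right _ _)
      have h1 := hanti (h s) (hh s hs1).1 (h t) (hh t ht).1
      rw [(hh s hs1).2, (hh t ht).2, ← dist_eq_norm, ← dist_eq_norm] at h1
      have h2 : ‖A‖ / 2 * dist (h s) (h t) < ‖A‖ / 2 * ε := lt_of_le_of_lt h1 hs2
      exact lt_of_mul_lt_mul_left h2 (by positivity)
    have hder : deriv f (h t) ≠ 0 := by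
      intro hd0
      have h1 := hclose (h t) (hh t ht).1
      rw [hd0, zero_sub, norm_neg] at h1
      linarith
    have h1 : HasDerivAt h (deriv f (h t))⁻¹ t :=
      HasDerivAt.of_local_left_inverse hcont ((hf (h t)).hasDerivAt) hder
        (hball.mono fun s hs => (hh s hs).2)
    exact h1.differentiableAt
  · have hpos : 0 < ‖A‖ * δ / 8 := by positivity
    have h1 : ∀ᶠ z in 𝓝 z₀, f z ∈ ball (f z₀) (‖A‖ * δ / 8) :=
      (hf.continuous.continuousAt).eventually_mem (ball_mem_nhds _ hpos)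
    have h2 : ∀ᶠ z in 𝓝 z₀, z ∈ ball z₀ δ := ball_mem_nhds _ hδ
    filter_upwards [h1, h2] with z hz1 hz2
    exact hinj _ (hh _ hz1).1 _ hz2 (hh _ hz1).2

/-- Bloch's theorem for entire functions: a nonconstant entire function has univalent discs of
arbitrarily large radius. -/
lemma exists_large_univalent_disc {f : ℂ → ℂ} (hf : Differentiable ℂ f)
    (hfc : ∃ a b, f a ≠ f b) (ρ : ℝ) :
    ∃ a : ℂ, ∃ h : ℂ → ℂ, DifferentiableOn ℂ h (ball (f a) ρ) ∧
      (∀ t ∈ ball (f a) ρ, f (h t) = t) ∧ (∀ᶠ z in 𝓝 a, h (f z) = z) := by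
  -- a point where the derivative is nonzero
  obtain ⟨b, hb⟩ : ∃ b, deriv f b ≠ 0 := (eventually_deriv_ne hf hfc 0).exists
  have hb0 : 0 < ‖deriv f b‖ := norm_pos_iff.mpr hb
  set R : ℝ := 96 * (|ρ| + 1) / ‖deriv f b‖ with hR
  have hR0 : 0 < R := by positivity
  have hdc : Continuous (deriv f) := (hf.contDiff (n := 1)).continuous_deriv_one
  have hμc : ContinuousOn (fun z => (R - ‖z - b‖) * ‖deriv f z‖) (closedBall b R) := by
    apply Continuous.continuousOn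
    exact (continuous_const.sub ((continuous_id.sub continuous_const).norm)).mul hdc.norm
  obtain ⟨z₀, hz₀, hmax⟩ := (isCompact_closedBall b R).exists_isMaxOn
    ⟨b, mem_closedBall_self hR0.le⟩ hμc
  have hval : R * ‖deriv f b‖ ≤ (R - ‖z₀ - b‖) * ‖deriv f z₀‖ := by
    have h1 := hmax (mem_closedBall_self hR0.le : b ∈ closedBall b R)
    simpa using h1
  have hRb : R * ‖deriv f b‖ = 96 * (|ρ| + 1) := by
    rw [hR]; field_simp
  have hpos : 0 < (R - ‖z₀ - b‖) * ‖deriv f z₀‖ := by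
    have : 0 < R * ‖deriv f b‖ := by positivity
    linarith
  have hz₀' : ‖z₀ - b‖ ≤ R := by
    rw [mem_closedBall, dist_eq_norm] at hz₀
    exact hz₀
  have hd0 : deriv f z₀ ≠ 0 := by
    intro h
    rw [h, norm_zero, mul_zero] at hpos
    exact lt_irrefl _ hpos
  have hA0 : 0 < ‖deriv f z₀‖ := norm_pos_iff.mpr hd0
  have hlt : 0 < R - ‖z₀ - b‖ := by
    by_contra h
    push Not at h
    have : (R - ‖z₀ - b‖) * ‖deriv f z₀‖ ≤ 0 := mul_nonpos_of_nonpos_of_nonneg h hA0.le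
    linarith
  set δ : ℝ := (R - ‖z₀ - b‖) / 2 with hδ
  have hδ0 : 0 < δ := by positivity
  -- bound on the derivative in the ball of radius `δ`
  have hbd : ∀ z ∈ ball z₀ δ, ‖deriv f z‖ ≤ 2 * ‖deriv f z₀‖ := by
    intro z hz
    rw [mem_ball, dist_eq_norm] at hz
    have h1 : ‖z - b‖ ≤ ‖z - z₀‖ + ‖z₀ - b‖ := by
      have : z - b = (z - z₀) + (z₀ - b) := by ring
      rw [this]
      exact norm_add_le _ _
    have h2 : δ ≤ R - ‖z - b‖ := by linarith
    have h3 : z ∈ closedBall b R := by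
      rw [mem_closedBall, dist_eq_norm]
      linarith
    have h4 : (R - ‖z - b‖) * ‖deriv f z‖ ≤ (R - ‖z₀ - b‖) * ‖deriv f z₀‖ := hmax h3
    have h5 : δ * ‖deriv f z‖ ≤ δ * (2 * ‖deriv f z₀‖) := by
      calc δ * ‖deriv f z‖ ≤ (R - ‖z - b‖) * ‖deriv f z‖ := by gcongr
        _ ≤ (R - ‖z₀ - b‖) * ‖deriv f z₀‖ := h4
        _ = δ * (2 * ‖deriv f z₀‖) := by rw [hδ]; ring
    exact le_of_mul_le_mul_left h5 hδ0
  -- Schwarz lemma for the derivative
  have hmaps : MapsTo (deriv f) (ball z₀ δ) (closedBall (deriv f z₀) (3 * ‖deriv f z₀‖)) := by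
    intro z hz
    rw [mem_closedBall, dist_eq_norm]
    calc ‖deriv f z - deriv f z₀‖ ≤ ‖deriv f z‖ + ‖deriv f z₀‖ := norm_sub_le _ _
      _ ≤ 2 * ‖deriv f z₀‖ + ‖deriv f z₀‖ := by linarith [hbd z hz]
      _ = 3 * ‖deriv f z₀‖ := by ring
  have hclose : ∀ z ∈ ball z₀ (δ / 6), ‖deriv f z - deriv f z₀‖ ≤ ‖deriv f z₀‖ / 2 := by
    intro z hz
    have h1 := Complex.dist_le_div_mul_dist_of_mapsTo_ball (f := deriv f) (c := z₀) (z := z)
      (hf.deriv.differentiableOn) hmaps (ball_subset_ball (by linarith) hz)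
    rw [dist_eq_norm] at h1
    rw [mem_ball] at hz
    calc ‖deriv f z - deriv f z₀‖ ≤ 3 * ‖deriv f z₀‖ / δ * dist z z₀ := h1
      _ ≤ 3 * ‖deriv f z₀‖ / δ * (δ / 6) := by gcongr
      _ = ‖deriv f z₀‖ / 2 := by field_simp; ring
  obtain ⟨h, hh1, hh2, hh3⟩ := exists_inverse_of_deriv_close hf (by positivity : 0 < δ / 6) hd0 hclose
  have hρ : ρ ≤ ‖deriv f z₀‖ * (δ / 6) / 8 := by
    have h1 : ‖deriv f z₀‖ * (δ / 6) / 8 = ((R - ‖z₀ - b‖) * ‖deriv f z₀‖) / 96 := by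
      rw [hδ]; ring
    rw [h1, le_div_iff₀ (by norm_num)]
    have h2 : ρ ≤ |ρ| := le_abs_self ρ
    linarith
  refine ⟨z₀, h, hh1.mono (ball_subset_ball hρ), fun t ht => hh2 t (ball_subset_ball hρ ht), hh3⟩

end Pool.Agent.Lib.MP_448b0d_an
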