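import Mathlib
import Pool.Agent.Lib.MP_448b0d_an.Curve
import Pool.Agent.Lib.MP_448b0d_an.Bloch

open Metric Set Filter Topology

namespace Pool.Agent.Lib.MP_448b0d_an

/-- A bounded function on the curve `f x + g z = 0` that does not depend on the choice of `z` in a
fibre is constant on the curve. -/
lemma const_on_curve {f g : ℂ → ℂ} (hf : Differentiable ℂ f) (hg : Differentiable ℂ g)
    (hfc : ∃ a b, f a ≠ f b) (hgc : ∃ a b, g a ≠ g b)
    {Φ : ℂ × ℂ → ℂ} (hΦ : Differentiable ℂ Φ) {C : ℝ}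
    (hC : ∀ p : ℂ × ℂ, f p.1 + g p.2 = 0 → ‖Φ p‖ ≤ C)
    (hfib : ∀ x z z' : ℂ, f x + g z = 0 → f x + g z' = 0 → Φ (x, z) = Φ (x, z'))
    (p q : ℂ × ℂ) (hp : f p.1 + g p.2 = 0) (hq : f q.1 + g q.2 = 0) : Φ p = Φ q := by
  set D : ℂ × ℂ → ℂ := fun s => Φ s - Φ q with hD
  have hDd : Differentiable ℂ D := hΦ.sub_const _
  have hDC : ∀ s : ℂ × ℂ, f s.1 + g s.2 = 0 → ‖D s‖ ≤ 2 * C := by
    intro s hs
    calc ‖D s‖ ≤ ‖Φ s‖ + ‖Φ q‖ := norm_sub_le _ _
      _ ≤ C + C := add_le_add (hC s hs) (hC q hq)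
      _ = 2 * C := by ring
  have hle : ∀ ε : ℝ, 0 < ε → ‖D p‖ ≤ ε := by
    intro ε hε
    -- neighbourhood of `q` on which `Φ` is close to `Φ q`
    have hcont : ContinuousAt Φ q := hΦ.continuous.continuousAt
    obtain ⟨δ, hδ0, hδ⟩ := Metric.continuousAt_iff.mp hcont ε hε
    have hopen : IsOpen (g '' ball q.2 δ) := isOpenMap_entire hg hgc _ isOpen_ball
    have hmem : - f q.1 ∈ g '' ball q.2 δ :=
      ⟨q.2, mem_ball_self hδ0, by linear_combination hq⟩
    have hev : ∀ᶠ x in 𝓝 q.1, - f x ∈ g '' ball q.2 δ :=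
      (hf.continuous.neg.continuousAt).eventually_mem (hopen.mem_nhds hmem)
    have hev2 : ∀ᶠ x in 𝓝 q.1, x ∈ ball q.1 δ := ball_mem_nhds _ hδ0
    obtain ⟨r, hr0, hr⟩ := Metric.nhds_basis_closedBall.eventually_iff.mp (hev.and hev2)
    apply curve_PL hf hg hfc hgc hDd (a := q.1) hr0 hε hDC _ p hp
    intro s hs hsr
    have hsmem : s.1 ∈ closedBall q.1 r := by
      rw [mem_closedBall, dist_eq_norm]; exact hsr
    obtain ⟨⟨z, hz, hzs⟩, hsδ⟩ := hr hsmem
    have h1 : Φ s = Φ (s.1, z) := by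
      have h2 : s = (s.1, s.2) := rfl
      rw [h2]
      apply hfib
      · exact hs
      · rw [hzs]; ring
    have h3 : dist (s.1, z) q < δ := by
      rw [Prod.dist_eq, max_lt_iff]
      exact ⟨hsδ, hz⟩
    have h4 := hδ h3
    rw [dist_eq_norm] at h4
    simp only [hD]
    rw [h1]
    exact h4.le
  have h0 : ‖D p‖ ≤ 0 := le_of_forall_pos_le_add (fun ε hε => by simpa using hle ε hε)
  exact sub_eq_zero.mp (norm_le_zero_iff.mp h0)

/-- A bounded entire function on the surface does not depend on the choice of the third coordinate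
in a fibre. -/
lemma fibre_indep {f₁ f₂ f₃ : ℂ → ℂ} (h1 : Differentiable ℂ f₁) (h2 : Differentiable ℂ f₂)
    (h3 : Differentiable ℂ f₃) (h1c : ∃ a b, f₁ a ≠ f₁ b) (h2c : ∃ a b, f₂ a ≠ f₂ b)
    {F : (Fin 3 → ℂ) → ℂ} (hF : Differentiable ℂ F) {C : ℝ}
    (hC : ∀ z : Fin 3 → ℂ, f₁ (z 0) + f₂ (z 1) + f₃ (z 2) = 0 → ‖F z‖ ≤ C)
    (x y z z' : ℂ) (hz : f₁ x + f₂ y + f₃ z = 0) (hz' : f₁ x + f₂ y + f₃ z' = 0) :
    F ![x, y, z] = F ![x, y, z'] := by
  have hC' : ∀ x y z : ℂ, f₁ x + f₂ y + f₃ z = 0 → ‖F ![x, y, z]‖ ≤ C := by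
    intro x y z h
    apply hC
    simpa using h
  have hC0 : 0 ≤ C := (norm_nonneg _).trans (hC' x y z hz)
  have hzz : f₃ z' = f₃ z := by linear_combination hz' - hz
  set g : ℂ → ℂ := fun y => f₂ y + f₃ z with hg
  have hgd : Differentiable ℂ g := h2.add_const _
  have hgc : ∃ a b, g a ≠ g b := by
    obtain ⟨a, b, hab⟩ := h2c
    exact ⟨a, b, fun h => hab (add_right_cancel h)⟩
  set D : ℂ × ℂ → ℂ := fun p => F ![p.1, p.2, z] - F ![p.1, p.2, z'] with hD
  have hvec : ∀ c : ℂ, Differentiable ℂ fun p : ℂ × ℂ => (![p.1, p.2, c] : Fin 3 → ℂ) := by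
    intro c
    rw [differentiable_pi]
    intro i
    fin_cases i
    · simp
    · simp
    · simp
  have hDd : Differentiable ℂ D := (hF.comp (hvec z)).sub (hF.comp (hvec z'))
  have hDC : ∀ p : ℂ × ℂ, f₁ p.1 + g p.2 = 0 → ‖D p‖ ≤ 2 * C := by
    intro p hp
    have e1 : f₁ p.1 + f₂ p.2 + f₃ z = 0 := by
      simp only [hg] at hp; linear_combination hp
    have e2 : f₁ p.1 + f₂ p.2 + f₃ z' = 0 := by rw [hzz]; exact e1
    calc ‖D p‖ ≤ ‖F ![p.1, p.2, z]‖ + ‖F ![p.1, p.2, z']‖ := norm_sub_le _ _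
      _ ≤ C + C := add_le_add (hC' _ _ _ e1) (hC' _ _ _ e2)
      _ = 2 * C := by ring
  have hle : ∀ ε : ℝ, 0 < ε → ‖D (x, y)‖ ≤ ε := by
    intro ε hε
    -- the radius `R`
    set R : ℝ := dist z' z + 1 + 2 * C * dist z' z / ε with hR
    have hd0 : 0 ≤ dist z' z := dist_nonneg
    have hR0 : 0 < R := by positivity
    have hRz : dist z' z < R := by
      have : 0 ≤ 2 * C * dist z' z / ε := by positivity
      linarith
    have hRε : 2 * C / R * dist z' z ≤ ε := by
      rw [div_mul_eq_mul_div, div_le_iff₀ hR0]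
      have h5 : ε * (2 * C * dist z' z / ε) = 2 * C * dist z' z := by field_simp
      have h6 : 0 ≤ ε * (dist z' z + 1) := by positivity
      calc 2 * C * dist z' z = ε * (2 * C * dist z' z / ε) := h5.symm
        _ ≤ ε * (dist z' z + 1) + ε * (2 * C * dist z' z / ε) := by linarith
        _ = ε * R := by rw [hR]; ring
    obtain ⟨ρ, hρ⟩ := (isCompact_closedBall z R).exists_bound_of_continuousOn
      (f := fun s => f₃ z - f₃ s) (continuous_const.sub h3.continuous).continuousOn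
    have hρ0 : 0 ≤ ρ := (norm_nonneg _).trans (hρ z (mem_closedBall_self hR0.le))
    obtain ⟨a, h, hhd, hhf, hhinv⟩ := exists_large_univalent_disc h1 h1c (ρ + 1)
    have hev1 : ∀ᶠ x in 𝓝 a, f₁ x ∈ ball (f₁ a) 1 :=
      (h1.continuous.continuousAt).eventually_mem (ball_mem_nhds _ one_pos)
    obtain ⟨r, hr0, hr⟩ := Metric.nhds_basis_closedBall.eventually_iff.mp (hev1.and hhinv)
    apply curve_PL h1 hgd h1c hgc hDd (a := a) hr0 hε hDC _ (x, y)
    · simp only [hg]; linear_combination hz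
    intro s hs hsr
    have hsmem : s.1 ∈ closedBall a r := by
      rw [mem_closedBall, dist_eq_norm]; exact hsr
    obtain ⟨hs1, hs2⟩ := hr hsmem
    have hsX : f₁ s.1 + f₂ s.2 + f₃ z = 0 := by
      simp only [hg] at hs; linear_combination hs
    -- the holomorphic disc
    set τ : ℂ → ℂ := fun t => f₁ s.1 + (f₃ z - f₃ t) with hτ
    have hτd : Differentiable ℂ τ := (h3.const_sub (f₃ z)).const_add _
    have hτmem : ∀ t ∈ ball z R, τ t ∈ ball (f₁ a) (ρ + 1) := by
      intro t ht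
      have h7 := hρ t (ball_subset_closedBall ht)
      rw [mem_ball, dist_eq_norm] at hs1 ⊢
      have h8 : τ t - f₁ a = (f₁ s.1 - f₁ a) + (f₃ z - f₃ t) := by
        simp only [hτ]; ring
      rw [h8]
      calc ‖(f₁ s.1 - f₁ a) + (f₃ z - f₃ t)‖ ≤ ‖f₁ s.1 - f₁ a‖ + ‖f₃ z - f₃ t‖ := norm_add_le _ _
        _ < ρ + 1 := by linarith
    set ψ : ℂ → ℂ := fun t => F ![h (τ t), s.2, t] with hψ
    have hψd : DifferentiableOn ℂ ψ (ball z R) := by
      have hin : DifferentiableOn ℂ (fun t => (![h (τ t), s.2, t] : Fin 3 → ℂ)) (ball z R) := by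
        rw [differentiableOn_pi]
        intro i
        fin_cases i
        · have hcomp : DifferentiableOn ℂ (fun t => h (τ t)) (ball z R) :=
            hhd.comp hτd.differentiableOn hτmem
          simpa using hcomp
        · simp
        · have hid : DifferentiableOn ℂ (fun t : ℂ => t) (ball z R) := differentiableOn_id
          simpa using hid
      exact hF.comp_differentiableOn hin
    have hψX : ∀ t ∈ ball z R, ‖ψ t‖ ≤ C := by
      intro t ht
      apply hC'
      rw [hhf _ (hτmem t ht)]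
      simp only [hτ]
      linear_combination hsX
    have hzR : z ∈ ball z R := mem_ball_self hR0
    have hmaps : MapsTo ψ (ball z R) (closedBall (ψ z) (2 * C)) := by
      intro t ht
      rw [mem_closedBall, dist_eq_norm]
      calc ‖ψ t - ψ z‖ ≤ ‖ψ t‖ + ‖ψ z‖ := norm_sub_le _ _
        _ ≤ C + C := add_le_add (hψX t ht) (hψX z hzR)
        _ = 2 * C := by ring
    have hz'R : z' ∈ ball z R := hRz
    have hfin := Complex.dist_le_div_mul_dist_of_mapsTo_ball hψd hmaps hz'R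
    have e1 : τ z = f₁ s.1 := by simp [hτ]
    have e2 : τ z' = f₁ s.1 := by simp [hτ, hzz]
    have e3 : ψ z = F ![s.1, s.2, z] := by simp only [hψ]; rw [e1, hs2]
    have e4 : ψ z' = F ![s.1, s.2, z'] := by simp only [hψ]; rw [e2, hs2]
    rw [e3, e4, dist_comm, dist_eq_norm] at hfin
    exact hfin.trans hRε
  have h0 : ‖D (x, y)‖ ≤ 0 := le_of_forall_pos_le_add (fun ε hε => by simpa using hle ε hε)
  exact sub_eq_zero.mp (norm_le_zero_iff.mp h0)

/-- The range of a nonconstant entire function is dense. -/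
lemma denseRange_entire {f : ℂ → ℂ} (hf : Differentiable ℂ f) (hfc : ∃ a b, f a ≠ f b) :
    Dense (range f) := by
  rw [Metric.dense_iff]
  intro w r hr
  by_contra hcon
  rw [not_nonempty_iff_eq_empty] at hcon
  have hfar : ∀ x, r ≤ ‖f x - w‖ := by
    intro x
    by_contra hlt
    push Not at hlt
    have : f x ∈ ball w r ∩ range f := ⟨by rw [mem_ball, dist_eq_norm]; exact hlt, ⟨x, rfl⟩⟩
    rw [hcon] at this
    exact this
  have hne : ∀ x, f x - w ≠ 0 := by
    intro x h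
    have := hfar x
    rw [h, norm_zero] at this
    linarith
  have hd : Differentiable ℂ fun x => (f x - w)⁻¹ := by
    intro x
    exact ((hf x).sub_const w).fun_inv (hne x)
  obtain ⟨a, b, hab⟩ := hfc
  apply hab
  have h1 : (f a - w)⁻¹ = (f b - w)⁻¹ := by
    apply hd.apply_eq_apply_of_bounded (f := fun x => (f x - w)⁻¹)
    rw [isBounded_iff_forall_norm_le]
    refine ⟨r⁻¹, ?_⟩
    rintro _ ⟨x, rfl⟩
    simp only [norm_inv]
    exact inv_anti₀ hr (hfar x)
  have h2 := inv_injective h1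
  exact sub_left_injective h2

/-- Main theorem, in vector notation. -/
theorem liouville {f₁ f₂ f₃ : ℂ → ℂ} (h1 : Differentiable ℂ f₁) (h2 : Differentiable ℂ f₂)
    (h3 : Differentiable ℂ f₃) (h1c : ∃ a b, f₁ a ≠ f₁ b) (h2c : ∃ a b, f₂ a ≠ f₂ b)
    (h3c : ∃ a b, f₃ a ≠ f₃ b)
    {F : (Fin 3 → ℂ) → ℂ} (hF : Differentiable ℂ F) {C : ℝ}
    (hC : ∀ z : Fin 3 → ℂ, f₁ (z 0) + f₂ (z 1) + f₃ (z 2) = 0 → ‖F z‖ ≤ C)
    (x y z x' y' z' : ℂ) (hz : f₁ x + f₂ y + f₃ z = 0) (hz' : f₁ x' + f₂ y' + f₃ z' = 0) :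
    F ![x, y, z] = F ![x', y', z'] := by
  have hC' : ∀ x y z : ℂ, f₁ x + f₂ y + f₃ z = 0 → ‖F ![x, y, z]‖ ≤ C := by
    intro x y z h
    apply hC
    simpa using h
  have hfib := fibre_indep h1 h2 h3 h1c h2c hF hC
  -- slices `y = const`
  have hslice2 : ∀ y x z x' z' : ℂ, f₁ x + f₂ y + f₃ z = 0 → f₁ x' + f₂ y + f₃ z' = 0 →
      F ![x, y, z] = F ![x', y, z'] := by
    intro y x z x' z' e1 e2
    have hvec : Differentiable ℂ fun p : ℂ × ℂ => (![p.1, y, p.2] : Fin 3 → ℂ) := by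
      rw [differentiable_pi]
      intro i
      fin_cases i
      · simp
      · simp
      · simp
    obtain ⟨a, b, hab⟩ := h3c
    exact const_on_curve (f := f₁) (g := fun t => f₃ t + f₂ y) h1 (h3.add_const _) h1c
      ⟨a, b, fun h => hab (add_right_cancel h)⟩ (Φ := fun p => F ![p.1, y, p.2])
      (hF.comp hvec) (C := C)
      (fun p hp => hC' _ _ _ (by linear_combination hp))
      (fun x z z' e1 e2 => hfib x y z z' (by linear_combination e1) (by linear_combination e2))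
      (x, z) (x', z') (by simp only; linear_combination e1) (by simp only; linear_combination e2)
  -- slices `x = const`
  have hslice1 : ∀ x y z y' z' : ℂ, f₁ x + f₂ y + f₃ z = 0 → f₁ x + f₂ y' + f₃ z' = 0 →
      F ![x, y, z] = F ![x, y', z'] := by
    intro x y z y' z' e1 e2
    have hvec : Differentiable ℂ fun p : ℂ × ℂ => (![x, p.1, p.2] : Fin 3 → ℂ) := by
      rw [differentiable_pi]
      intro i
      fin_cases i
      · simp
      · simp
      · simp
    obtain ⟨a, b, hab⟩ := h3c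
    exact const_on_curve (f := f₂) (g := fun t => f₃ t + f₁ x) h2 (h3.add_const _) h2c
      ⟨a, b, fun h => hab (add_right_cancel h)⟩ (Φ := fun p => F ![x, p.1, p.2])
      (hF.comp hvec) (C := C)
      (fun p hp => hC' _ _ _ (by linear_combination hp))
      (fun y z z' e1 e2 => hfib x y z z' (by linear_combination e1) (by linear_combination e2))
      (y, z) (y', z') (by simp only; linear_combination e1) (by simp only; linear_combination e2)
  -- a common value `x''`
  have hopen3 : IsOpen (range f₃) := by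
    rw [← image_univ]
    exact isOpenMap_entire h3 h3c _ isOpen_univ
  have hdense3 : Dense (range f₃) := denseRange_entire h3 h3c
  have hpre : ∀ c : ℂ, IsOpen {t | - f₁ t - c ∈ range f₃} ∧ Dense {t | - f₁ t - c ∈ range f₃} := by
    intro c
    have hd : Differentiable ℂ fun t => - f₁ t - c := h1.neg.sub_const c
    have hnc : ∃ a b, (fun t => - f₁ t - c) a ≠ (fun t => - f₁ t - c) b := by
      obtain ⟨a, b, hab⟩ := h1c
      exact ⟨a, b, fun h => hab (by simpa using h)⟩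
    exact ⟨hopen3.preimage hd.continuous, hdense3.preimage (isOpenMap_entire hd hnc)⟩
  obtain ⟨t, ht1, ht2⟩ : ({t | - f₁ t - f₂ y ∈ range f₃} ∩
      {t | - f₁ t - f₂ y' ∈ range f₃}).Nonempty :=
    (hpre (f₂ y')).2.inter_open_nonempty _ (hpre (f₂ y)).1 (hpre (f₂ y)).2.nonempty
  obtain ⟨u, hu⟩ := ht1
  obtain ⟨u', hu'⟩ := ht2
  have e1 : f₁ t + f₂ y + f₃ u = 0 := by rw [hu]; ring
  have e2 : f₁ t + f₂ y' + f₃ u' = 0 := by rw [hu']; ring
  calc F ![x, y, z] = F ![t, y, u] := hslice2 y x z t u hz e1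
    _ = F ![t, y', u'] := hslice1 t y u y' u' e1 e2
    _ = F ![x', y', z'] := hslice2 y' t u' x' z' e2 hz'

end Pool.Agent.Lib.MP_448b0d_an
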